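import Mathlib
import Pool.Agent.H892R2.Tomo.Had

/-! Families of sign vectors: the Chernoff bound by counting and a greedy selection. -/

set_option autoImplicit false

open Finset

namespace Pool.Agent.Y509.RF

/-- the sign of a bit -/
def pm (b : Bool) : ℝ := if b then -1 else 1

theorem pm_cases (b : Bool) : pm b = 1 ∨ pm b = -1 := by
  cases b <;> simp [pm]

theorem pm_mul_self (b : Bool) : pm b * pm b = 1 := by
  cases b <;> simp [pm]

theorem pm_abs (b : Bool) : |pm b| = 1 := by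
  cases b <;> simp [pm]

/-- the number of sign vectors with a large inner product with a given sign vector -/
theorem chernoff {D : ℕ} (v : Fin D → ℝ) (hv : ∀ j, v j = 1 ∨ v j = -1) {c : ℝ} (hc : 0 ≤ c) :
    (((univ : Finset (Fin D → Bool)).filter (fun ε => c * D ≤ ∑ j, v j * pm (ε j))).card : ℝ) ≤
      2 ^ D * Real.exp (-(c ^ 2 * D / 2)) := by
  set S := (univ : Finset (Fin D → Bool)).filter (fun ε => c * D ≤ ∑ j, v j * pm (ε j)) with hS
  have h1 : (S.card : ℝ) * Real.exp (c * (c * D)) ≤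
      ∑ ε : Fin D → Bool, Real.exp (c * ∑ j, v j * pm (ε j)) := by
    calc (S.card : ℝ) * Real.exp (c * (c * D)) = ∑ ε ∈ S, Real.exp (c * (c * D)) := by
          rw [sum_const, nsmul_eq_mul]
      _ ≤ ∑ ε ∈ S, Real.exp (c * ∑ j, v j * pm (ε j)) := by
          refine sum_le_sum fun ε hε => ?_
          have h := (mem_filter.mp hε).2
          gcongr
      _ ≤ _ := sum_le_sum_of_subset_of_nonneg (subset_univ _)
          (fun _ _ _ => (Real.exp_pos _).le)
  have h2 : ∑ ε : Fin D → Bool, Real.exp (c * ∑ j, v j * pm (ε j)) =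
      ∏ j : Fin D, ∑ b : Bool, Real.exp (c * (v j * pm b)) := by
    rw [prod_univ_sum, Fintype.piFinset_univ]
    refine sum_congr rfl fun ε _ => ?_
    rw [mul_sum, Real.exp_sum]
  have h3 : ∀ j : Fin D, ∑ b : Bool, Real.exp (c * (v j * pm b)) ≤ 2 * Real.exp (c ^ 2 / 2) := by
    intro j
    have h4 := Real.cosh_le_exp_half_sq c
    rw [Real.cosh_eq] at h4
    rw [Fintype.sum_bool]
    rcases hv j with h | h <;> rw [h] <;> simp [pm] <;> linarith
  have h5 : ∑ ε : Fin D → Bool, Real.exp (c * ∑ j, v j * pm (ε j)) ≤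
      2 ^ D * Real.exp (c ^ 2 / 2 * D) := by
    rw [h2]
    calc _ ≤ ∏ _j : Fin D, (2 * Real.exp (c ^ 2 / 2)) :=
          prod_le_prod (fun j _ => sum_nonneg fun _ _ => (Real.exp_pos _).le) fun j _ => h3 j
      _ = 2 ^ D * Real.exp (c ^ 2 / 2 * D) := by
          rw [prod_const, card_univ, Fintype.card_fin, mul_pow, ← Real.exp_nat_mul]
          congr 2
          ring
  have h6 : 0 < Real.exp (c * (c * D)) := Real.exp_pos _
  have h7 : (S.card : ℝ) ≤ 2 ^ D * Real.exp (c ^ 2 / 2 * D) / Real.exp (c * (c * D)) := by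
    rw [le_div_iff₀ h6]
    exact h1.trans h5
  refine h7.trans (le_of_eq ?_)
  rw [mul_div_assoc, ← Real.exp_sub]
  congr 2
  ring

/-- greedy selection -/
theorem greedy {S : Type} [Fintype S] [DecidableEq S] (R : S → S → Prop) [DecidableRel R]
    (hR : ∀ x, R x x) (hs : ∀ x y, R x y → R y x)
    {M : ℕ} (hM : ∀ x, (univ.filter (fun y => R x y)).card ≤ M) {N : ℕ}
    (hN : N * M ≤ Fintype.card S) (hM0 : 0 < M) :
    ∃ T : Finset S, N ≤ T.card ∧ ∀ x ∈ T, ∀ y ∈ T, x ≠ y → ¬ R x y := by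
  classical
  obtain ⟨T, hT, hmax⟩ := Finset.exists_max_image
    ((univ : Finset S).powerset.filter (fun T => ∀ x ∈ T, ∀ y ∈ T, x ≠ y → ¬ R x y))
    Finset.card ⟨∅, by simp⟩
  rw [mem_filter] at hT
  refine ⟨T, ?_, hT.2⟩
  have hcov : (univ : Finset S) ⊆ T.biUnion (fun x => univ.filter (fun y => R x y)) := by
    intro y _
    rw [mem_biUnion]
    by_contra hno
    push Not at hno
    have hno' : ∀ x ∈ T, ¬ R x y := by
      intro x hx hr
      exact hno x hx (by simp [hr])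
    have hy : y ∉ T := fun h => hno' y h (hR y)
    have h1 := hmax (insert y T) (by
      rw [mem_filter]
      refine ⟨by simp, ?_⟩
      intro a ha b hb hab
      rw [mem_insert] at ha hb
      rcases ha with rfl | ha <;> rcases hb with rfl | hb
      · exact absurd rfl hab
      · intro h; exact hno' b hb (hs _ _ h)
      · exact hno' a ha
      · exact hT.2 a ha b hb hab)
    rw [card_insert_of_notMem hy] at h1
    omega
  have h2 := (card_le_card hcov).trans card_biUnion_le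
  have h3 : ∑ x ∈ T, (univ.filter (fun y => R x y)).card ≤ T.card * M := by
    calc _ ≤ ∑ _x ∈ T, M := sum_le_sum fun x _ => hM x
      _ = T.card * M := by rw [sum_const, smul_eq_mul]
  rw [card_univ] at h2
  have h4 : N * M ≤ T.card * M := hN.trans (h2.trans h3)
  exact Nat.le_of_mul_le_mul_right h4 hM0

open Pool.Agent.H892R2.Tomo

/-- the correlation of two sign vectors with a character is large -/
def Bad {k : ℕ} (ε δ : Fin (2 ^ k) → Bool) : Prop :=
  ∃ a : Fin k → ZMod 2, 3 / 4 * ((2 ^ k : ℕ) : ℝ) < |∑ j, chi a j * (pm (ε j) * pm (δ j))|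

theorem pm_true : pm true = -1 := rfl

theorem pm_false : pm false = 1 := rfl

theorem bad_card {k : ℕ} (ε : Fin (2 ^ k) → Bool) [DecidablePred (fun δ => Bad ε δ)] :
    (((univ : Finset (Fin (2 ^ k) → Bool)).filter (fun δ => Bad ε δ)).card : ℝ) ≤
      2 ^ (k + 1) * (2 ^ (2 ^ k) * Real.exp (-(9 / 32 * ((2 ^ k : ℕ) : ℝ)))) := by
  classical
  have hsub : (univ : Finset (Fin (2 ^ k) → Bool)).filter (fun δ => Bad ε δ) ⊆
      (univ : Finset ((Fin k → ZMod 2) × Bool)).biUnion (fun p =>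
        (univ : Finset (Fin (2 ^ k) → Bool)).filter (fun δ =>
          (3 / 4 : ℝ) * ((2 ^ k : ℕ) : ℝ) ≤
            ∑ j, (pm p.2 * (chi p.1 j * pm (ε j))) * pm (δ j))) := by
    intro δ hδ
    obtain ⟨a, ha⟩ := (mem_filter.mp hδ).2
    rw [mem_biUnion]
    rw [lt_abs] at ha
    rcases ha with ha | ha
    · refine ⟨(a, false), mem_univ _, ?_⟩
      rw [mem_filter]
      refine ⟨mem_univ _, ha.le.trans (le_of_eq ?_)⟩
      refine sum_congr rfl fun j _ => ?_
      simp only [pm_false]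
      ring
    · refine ⟨(a, true), mem_univ _, ?_⟩
      rw [mem_filter]
      refine ⟨mem_univ _, ha.le.trans (le_of_eq ?_)⟩
      rw [← sum_neg_distrib]
      refine sum_congr rfl fun j _ => ?_
      simp only [pm_true]
      ring
  have h1 : (((univ : Finset (Fin (2 ^ k) → Bool)).filter (fun δ => Bad ε δ)).card : ℝ) ≤
      ∑ p : (Fin k → ZMod 2) × Bool, (((univ : Finset (Fin (2 ^ k) → Bool)).filter (fun δ =>
          (3 / 4 : ℝ) * ((2 ^ k : ℕ) : ℝ) ≤
            ∑ j, (pm p.2 * (chi p.1 j * pm (ε j))) * pm (δ j))).card : ℝ) := by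
    have := (card_le_card hsub).trans card_biUnion_le
    exact_mod_cast this
  refine h1.trans ?_
  have h2 : ∀ p : (Fin k → ZMod 2) × Bool,
      (((univ : Finset (Fin (2 ^ k) → Bool)).filter (fun δ =>
      (3 / 4 : ℝ) * ((2 ^ k : ℕ) : ℝ) ≤
        ∑ j, (pm p.2 * (chi p.1 j * pm (ε j))) * pm (δ j))).card : ℝ) ≤
      2 ^ (2 ^ k) * Real.exp (-(9 / 32 * ((2 ^ k : ℕ) : ℝ))) := by
    intro p
    refine (chernoff (fun j => pm p.2 * (chi p.1 j * pm (ε j))) ?_
      (by norm_num : (0:ℝ) ≤ 3 / 4)).trans (le_of_eq ?_)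
    · intro j
      rcases pm_cases p.2 with h | h <;> rcases chi_cases p.1 j with h' | h' <;>
        rcases pm_cases (ε j) with h'' | h'' <;> simp only [h, h', h''] <;> norm_num
    · congr 3
      ring
  calc _ ≤ ∑ _p : (Fin k → ZMod 2) × Bool,
        (2 ^ (2 ^ k) * Real.exp (-(9 / 32 * ((2 ^ k : ℕ) : ℝ)))) :=
        sum_le_sum fun p _ => h2 p
    _ = _ := by
        rw [sum_const, card_univ, Fintype.card_prod, Fintype.card_bool, nsmul_eq_mul]
        congr 1
        simp [ZMod.card, pow_succ]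

theorem eight_le (k : ℕ) (hk : 6 ≤ k) : 8 * (k + 1) ≤ 2 ^ k := by
  induction k, hk using Nat.le_induction with
  | base => norm_num
  | succ n hn ih => rw [pow_succ]; omega

/-- many sign vectors with small correlations -/
theorem code (k : ℕ) (hk : 6 ≤ k) : ∃ T : Finset (Fin (2 ^ k) → Bool),
    2 ^ 2 ^ (k - 2) ≤ T.card ∧ ∀ x ∈ T, ∀ y ∈ T, x ≠ y → ∀ a : Fin k → ZMod 2,
      |∑ j, chi a j * (pm (x j) * pm (y j))| ≤ 3 / 4 * ((2 ^ k : ℕ) : ℝ) := by
  classical
  set D := 2 ^ k with hD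
  have hD0 : (0:ℝ) < D := by rw [hD]; positivity
  set B : ℝ := 2 ^ (k + 1) * (2 ^ D * Real.exp (-(9 / 32 * (D : ℝ)))) with hB
  have hB0 : 0 ≤ B := by positivity
  have hM : ∀ x : Fin D → Bool, (univ.filter (fun y => Bad x y)).card ≤ ⌊B⌋₊ := fun x =>
    Nat.le_floor (bad_card x)
  have hself : ∀ x : Fin D → Bool, Bad x x := by
    intro x
    refine ⟨0, ?_⟩
    have h1 : ∑ j, chi (0 : Fin k → ZMod 2) j * (pm (x j) * pm (x j)) = (D : ℝ) := by
      simp [chi_zero, pm_mul_self, hD]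
    rw [h1, abs_of_pos hD0]
    linarith
  have hsym : ∀ x y : Fin D → Bool, Bad x y → Bad y x := by
    rintro x y ⟨a, ha⟩
    refine ⟨a, ha.trans_le (le_of_eq ?_)⟩
    congr 1
    refine sum_congr rfl fun j _ => ?_
    ring
  have hMpos : 0 < ⌊B⌋₊ := by
    refine lt_of_lt_of_le ?_ (hM (fun _ => true))
    rw [card_pos]
    exact ⟨fun _ => true, mem_filter.mpr ⟨mem_univ _, hself _⟩⟩
  have hN : 2 ^ 2 ^ (k - 2) * ⌊B⌋₊ ≤ Fintype.card (Fin D → Bool) := by
    rw [Fintype.card_fun, Fintype.card_bool, Fintype.card_fin]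
    have h4 : D = 4 * 2 ^ (k - 2) := by
      rw [hD]
      conv_lhs => rw [show k = (k - 2) + 2 by omega]
      rw [pow_add]; ring
    have h8 := eight_le k hk
    have key : (2:ℝ) ^ 2 ^ (k - 2) * B ≤ 2 ^ D := by
      have hq : (((2 ^ (k - 2) : ℕ) : ℝ)) = (D : ℝ) / 4 := by
        rw [h4]; push_cast; ring
      have e1 : (2:ℝ) ^ 2 ^ (k - 2) = Real.exp (Real.log 2 * ((D:ℝ) / 4)) := by
        rw [← hq, Real.exp_mul, Real.exp_log (by norm_num), Real.rpow_natCast]
      have e2 : (2:ℝ) ^ (k + 1) = Real.exp (Real.log 2 * ((k:ℝ) + 1)) := by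
        rw [Real.exp_mul, Real.exp_log (by norm_num)]
        rw [show ((k:ℝ) + 1) = ((k + 1 : ℕ) : ℝ) by push_cast; ring, Real.rpow_natCast]
      rw [hB, e1, e2]
      have e3 : Real.exp (Real.log 2 * ((D:ℝ) / 4)) * (Real.exp (Real.log 2 * ((k:ℝ) + 1)) *
          (2 ^ D * Real.exp (-(9 / 32 * (D : ℝ))))) =
          2 ^ D * Real.exp (Real.log 2 * ((D:ℝ) / 4) + Real.log 2 * ((k:ℝ) + 1) +
            -(9 / 32 * (D : ℝ))) := by
        rw [Real.exp_add, Real.exp_add]; ring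
      rw [e3]
      have h9 : Real.log 2 < 0.6931471808 := Real.log_two_lt_d9
      have h10 : (8:ℝ) * ((k:ℝ) + 1) ≤ D := by rw [hD]; exact_mod_cast h8
      have h11 : Real.log 2 * ((D:ℝ) / 4) + Real.log 2 * ((k:ℝ) + 1) + -(9 / 32 * (D : ℝ)) ≤ 0 := by
        have h0 : 0 < Real.log 2 := Real.log_pos (by norm_num)
        nlinarith
      calc (2:ℝ) ^ D * Real.exp _ ≤ 2 ^ D * 1 := by
            gcongr
            exact Real.exp_le_one_iff.mpr h11
        _ = 2 ^ D := mul_one _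
    have h5 : ((2 ^ 2 ^ (k - 2) * ⌊B⌋₊ : ℕ) : ℝ) ≤ ((2 ^ D : ℕ) : ℝ) := by
      push_cast
      calc (2:ℝ) ^ 2 ^ (k - 2) * (⌊B⌋₊ : ℝ) ≤ (2:ℝ) ^ 2 ^ (k - 2) * B := by
            gcongr
            exact Nat.floor_le hB0
        _ ≤ 2 ^ D := key
    exact_mod_cast h5
  obtain ⟨T, hT1, hT2⟩ := greedy (fun x y : Fin D → Bool => Bad x y) hself hsym hM hN hMpos
  refine ⟨T, hT1, fun x hx y hy hxy a => ?_⟩
  by_contra h
  exact hT2 x hx y hy hxy ⟨a, not_le.mp h⟩

end Pool.Agent.Y509.RF
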