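import Pool.Agent.Y509.RF.Code
import Pool.Agent.Results.MP_9f0ab0_gt.CutCubes

/-! Reflected copies of the cut cube: isotropy, sections, distances. -/

set_option autoImplicit false

open Set Module MeasureTheory
open scoped RealInnerProductSpace ENNReal Pointwise

namespace Pool.Agent.Y509.RF

open Pool.Agent.H892R2.Tomo Pool.Agent.Results.MP_9f0ab0_gt.CutCubes

/-- the reflected family of normals -/
noncomputable def WE {k : ℕ} (ε : Fin (2 ^ k) → Bool) : (Fin k → ZMod 2) → Fin (2 ^ k) → ℝ :=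
  fun a j => chi a j * pm (ε j)

theorem WE_cases {k : ℕ} (ε : Fin (2 ^ k) → Bool) (a : Fin k → ZMod 2) (j : Fin (2 ^ k)) :
    WE ε a j = 1 ∨ WE ε a j = -1 := by
  unfold WE
  rcases chi_cases a j with h | h <;> rcases pm_cases (ε j) with h' | h' <;> rw [h, h'] <;> simp

theorem WE_abs {k : ℕ} (ε : Fin (2 ^ k) → Bool) : ∀ a j, |WE ε a j| = 1 :=
  fun a j => abs_of_cases (WE_cases ε a j)

theorem sgn_pm {k : ℕ} (ε : Fin (2 ^ k) → Bool) (x : EuclideanSpace ℝ (Fin (2 ^ k)))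
    (j : Fin (2 ^ k)) : sgn ε x j = pm (ε j) * x j := by
  rw [sgn_apply]; rfl

theorem sgn_E {k : ℕ} (ε : Fin (2 ^ k) → Bool) (s : ℝ) :
    (sgn ε) ⁻¹' (KK s (WP k)) = KK s (WE ε) := by
  ext x
  simp only [mem_preimage, KK, mem_ofPred_eq, sgn_pm]
  have h1 : ∀ j, |pm (ε j) * x j| = |x j| := by
    intro j; rw [abs_mul, pm_abs, one_mul]
  have h2 : ∀ a, ∑ j, WP k a j * (pm (ε j) * x j) = ∑ j, WE ε a j * x j := by
    intro a; refine Finset.sum_congr rfl fun j _ => ?_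
    unfold WP WE; ring
  simp only [h1, h2]

theorem sgn_sgn {k : ℕ} (ε : Fin (2 ^ k) → Bool) (x : EuclideanSpace ℝ (Fin (2 ^ k))) :
    sgn ε (sgn ε x) = x := by
  ext j
  rw [sgn_pm, sgn_pm, ← mul_assoc, pm_mul_self, one_mul]

theorem volE {k : ℕ} (ε : Fin (2 ^ k) → Bool) (s : ℝ) :
    volume (KK s (WE ε)) = volume (KK s (WP k)) := vol_iso (sgn ε) (sgn_E ε s)

theorem momE {k : ℕ} (ε : Fin (2 ^ k) → Bool) (s : ℝ) (i j : Fin (2 ^ k)) :
    mom (KK s (WE ε)) i j = if i = j then mom (KK s (WP k)) i i else 0 := by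
  have h1 := mom_iso (sgn ε) (sgn_E ε s) i j
  simp only [sgn_pm] at h1
  have h3 : ∀ x : EuclideanSpace ℝ (Fin (2 ^ k)),
      pm (ε i) * x i * (pm (ε j) * x j) = (pm (ε i) * pm (ε j)) * (x i * x j) := by
    intro x; ring
  simp only [h3, integral_const_mul] at h1
  have h4 : ∫ x in KK s (WE ε), x i * x j = mom (KK s (WE ε)) i j := rfl
  rw [h4] at h1
  by_cases hij : i = j
  · subst hij
    rw [if_pos rfl, ← h1, pm_mul_self, one_mul]
  · rw [if_neg hij]
    rw [mom_off s hij] at h1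
    have hne : pm (ε i) * pm (ε j) ≠ 0 := by
      rcases pm_cases (ε i) with h | h <;> rcases pm_cases (ε j) with h' | h' <;>
        rw [h, h'] <;> norm_num
    exact (mul_eq_zero.mp h1).resolve_left hne

/-- the polytope with the signs `ε` -/
noncomputable def PE {k : ℕ} (ε : Fin (2 ^ k) → Bool) : Set (E (2 ^ k)) := KK (scl k) (WE ε)

theorem scl_pos (k : ℕ) : 0 < scl k := lt_of_lt_of_le one_pos (scl_ge k)

theorem isoE {k : ℕ} (ε : Fin (2 ^ k) → Bool) :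
    Pool.Agent.Results.MP_9f0ab0_gt.CutCubes.IsIsotropic (PE ε) :=
  iso_of (by rw [volE]) (momE ε _)

theorem facets_E {k : ℕ} (ε : Fin (2 ^ k) → Bool) : AtMostFacets (PE ε) (4 * 2 ^ k) := by
  refine (facets_KK (by positivity) (scl k) (WE ε) (WE_abs ε)).trans (Nat.cast_le.mpr ?_)
  have hc : Fintype.card (Fin k → ZMod 2) = 2 ^ k := by simp [ZMod.card]
  rw [hc]
  omega

theorem sections_E {k : ℕ} (ε δ : Fin (2 ^ k) → Bool) (θ : EuclideanSpace ℝ (Fin (2 ^ k)))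
    (hθ : ‖θ‖ = 1) :
    |relSection (PE ε) θ - relSection (PE δ) θ| ≤
      2 * 2 ^ k * (Real.exp (((2 ^ k : ℕ) : ℝ) + 8 * √((2 ^ k : ℕ) : ℝ)) / 6 ^ (2 ^ k)) := by
  have hs : 0 < scl k := scl_pos k
  unfold PE
  set s := scl k with hsdef
  have h1 := sec_diff hs (WE ε) (WE δ) (WE_cases ε) θ hθ
  have h2 := sec_diff hs (WE δ) (WE ε) (WE_cases δ) θ hθ
  have hs1 : 1 ≤ s := scl_ge k
  set a := (sec (KK s (WE ε)) θ).toReal with ha
  set b := (sec (KK s (WE δ)) θ).toReal with hb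
  set E := err (Fin k → ZMod 2) s (2 ^ k) with hE
  set v := (volume (KK s (WE ε))).toReal with hv
  have hvq : (volume (KK s (WE δ))).toReal = v := by rw [hv, volE, volE]
  have hvpos : 0 < v := vol_pos hs (WE ε) (WE_abs ε)
  have hvl : (3 / 2 * s) ^ (2 ^ k) ≤ v := by
    have h3 := ENNReal.toReal_mono (KK_bdd hs.le (WE ε)).measure_lt_top.ne
      (vol_lower hs (WE ε) (WE_abs ε))
    rwa [ENNReal.toReal_ofReal (by positivity)] at h3
  have h3 : relSection (KK s (WE ε)) θ - relSection (KK s (WE δ)) θ = (a - b) / v := by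
    have e1 : vol (centralSection (KK s (WE ε)) θ) = a := rfl
    have e2 : vol (centralSection (KK s (WE δ)) θ) = b := rfl
    have e3 : vol (KK s (WE δ)) = v := hvq
    have e4 : vol (KK s (WE ε)) = v := rfl
    unfold relSection
    rw [e1, e2, e3, e4]
    ring
  rw [h3, abs_div, abs_of_pos hvpos]
  have hEn : 0 ≤ E := err_nonneg hs.le
  have h4 : |a - b| ≤ E := by
    rw [abs_le]
    constructor <;> nlinarith
  calc |a - b| / v ≤ E / (3 / 2 * s) ^ (2 ^ k) := by gcongr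
    _ = 2 * 2 ^ k * (Real.exp (((2 ^ k : ℕ) : ℝ) + 8 * √((2 ^ k : ℕ) : ℝ)) / 6 ^ (2 ^ k)) := by
        rw [hE]
        unfold err
        have hc : Fintype.card (Fin k → ZMod 2) = 2 ^ k := by simp [ZMod.card]
        rw [hc, mul_pow]
        have h6 : (6:ℝ) ^ (2 ^ k) = 4 ^ (2 ^ k) * (3 / 2) ^ (2 ^ k) := by
          rw [← mul_pow]; norm_num
        rw [h6]
        push_cast
        have : s ^ 2 ^ k ≠ 0 := by positivity
        field_simp

theorem bound_le (k : ℕ) (hk : 14 ≤ k) :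
    2 * 2 ^ k * (Real.exp (((2 ^ k : ℕ) : ℝ) + 8 * √((2 ^ k : ℕ) : ℝ)) / 6 ^ (2 ^ k)) ≤
      1 / 2 ^ (2 ^ k) := by
  set D : ℝ := ((2 ^ k : ℕ) : ℝ) with hD
  have hD' : (2:ℝ) ^ k = D := by rw [hD]; push_cast; rfl
  have hD1 : (16384:ℝ) ≤ D := by
    rw [hD]
    have : 2 ^ 14 ≤ 2 ^ k := Nat.pow_le_pow_right (by norm_num) hk
    have h2 : (16384:ℕ) ≤ 2 ^ k := by simpa using this
    exact_mod_cast h2
  have hDpos : 0 < D := by linarith
  have h1 : 8 * √D ≤ D / 16 := by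
    have h3 : (128:ℝ) ≤ √D := by
      rw [show (128:ℝ) = √16384 by
        rw [show (16384:ℝ) = 128 ^ 2 by norm_num, Real.sqrt_sq (by norm_num)]]
      exact Real.sqrt_le_sqrt hD1
    have h4 : √D * √D = D := Real.mul_self_sqrt hDpos.le
    nlinarith
  have h2 : 2 * D ≤ Real.exp (D / 32) := by
    have h3 := Real.quadratic_le_exp_of_nonneg (show (0:ℝ) ≤ D / 32 by positivity)
    nlinarith
  have h3 : Real.exp (35 / 32) < 3 := by
    have h1 : Real.exp (35 / 32) ^ 32 < 3 ^ 32 := by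
      rw [← Real.exp_nat_mul]
      have h2 : Real.exp (((32:ℕ):ℝ) * (35 / 32)) = Real.exp 1 ^ 35 := by
        rw [← Real.exp_nat_mul]; norm_num
      rw [h2]
      calc Real.exp 1 ^ 35 < 2.7182818286 ^ 35 := by
            apply pow_lt_pow_left₀ Real.exp_one_lt_d9 (Real.exp_pos 1).le (by norm_num)
        _ < 3 ^ 32 := by norm_num
    exact lt_of_pow_lt_pow_left₀ 32 (by norm_num) h1
  have h4 : 2 * D * Real.exp (D + 8 * √D) ≤ 3 ^ (2 ^ k) := by
    calc 2 * D * Real.exp (D + 8 * √D) ≤ Real.exp (D / 32) * Real.exp (D + D / 16) := by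
          gcongr
      _ = Real.exp (D * (35 / 32)) := by
          rw [← Real.exp_add]; congr 1; ring
      _ = Real.exp (35 / 32) ^ (2 ^ k) := by
          rw [hD, ← Real.exp_nat_mul]
      _ ≤ 3 ^ (2 ^ k) := by gcongr
  rw [hD', ← mul_div_assoc]
  rw [div_le_div_iff₀ (by positivity) (by positivity), one_mul]
  calc 2 * D * Real.exp (D + 8 * √D) * 2 ^ (2 ^ k) ≤ 3 ^ (2 ^ k) * 2 ^ (2 ^ k) := by gcongr
    _ = 6 ^ (2 ^ k) := by rw [← mul_pow]; norm_num

theorem far_E {k : ℕ} (ε δ : Fin (2 ^ k) → Bool)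
    (h : ∀ a : Fin k → ZMod 2, |∑ j, chi a j * (pm (ε j) * pm (δ j))| ≤
      3 / 4 * ((2 ^ k : ℕ) : ℝ)) :
    √((2 ^ k : ℕ) : ℝ) / 4 ≤ Metric.hausdorffDist (PE ε) (PE δ) := by
  have hs1 : 1 ≤ scl k := scl_ge k
  have hs : 0 < scl k := scl_pos k
  unfold PE
  set s := scl k with hsdef
  set B : EuclideanSpace ℝ (Fin (2 ^ k)) := WithLp.toLp 2 (fun j => pm (δ j)) with hB
  have hBj : ∀ j, B j = pm (δ j) := fun j => rfl
  have hBn : ‖B‖ = √((2 ^ k : ℕ) : ℝ) := by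
    rw [EuclideanSpace.norm_eq]
    have : ∀ j, ‖B j‖ ^ 2 = 1 := by
      intro j
      rw [Real.norm_eq_abs, hBj, pm_abs]
      norm_num
    rw [Finset.sum_congr rfl fun j _ => this j]
    simp
  have hB0 : 0 < ‖B‖ := by rw [hBn]; positivity
  have hBsq : ‖B‖ * ‖B‖ = ((2 ^ k : ℕ) : ℝ) := by
    rw [hBn, Real.mul_self_sqrt (by positivity)]
  have hxP : s • B ∈ KK s (WE ε) := by
    constructor
    · intro j
      rw [PiLp.smul_apply, smul_eq_mul, abs_mul, abs_of_pos hs, hBj, pm_abs, mul_one]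
    · intro a
      have h1 : ∑ j, WE ε a j * (s • B) j = s * ∑ j, chi a j * (pm (ε j) * pm (δ j)) := by
        rw [Finset.mul_sum]
        refine Finset.sum_congr rfl fun j _ => ?_
        rw [PiLp.smul_apply, smul_eq_mul, hBj]
        unfold WE
        ring
      rw [h1, abs_mul, abs_of_pos hs]
      gcongr
      exact h a
  have hfar : ∀ q ∈ KK s (WE δ), √((2 ^ k : ℕ) : ℝ) / 4 ≤ dist (s • B) q := by
    intro q hq
    have h1 := hq.2 0
    have h2 : ∑ j, WE δ 0 j * q j = ⟪B, q⟫ := by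
      rw [PiLp.inner_apply]
      refine Finset.sum_congr rfl fun j _ => ?_
      unfold WE
      rw [chi_zero, ← hBj]
      simp [mul_comm]
    rw [h2] at h1
    have h3 := (abs_le.mp h1).2
    have h4 : ⟪B, s • B - q⟫ ≤ ‖B‖ * ‖s • B - q‖ := real_inner_le_norm _ _
    rw [inner_sub_right, inner_smul_right, real_inner_self_eq_norm_mul_norm, hBsq] at h4
    rw [dist_eq_norm]
    have h5 : ‖B‖ * (‖B‖ / 4) ≤ ‖B‖ * ‖s • B - q‖ := by
      have h6 : ‖B‖ * (‖B‖ / 4) = ((2 ^ k : ℕ) : ℝ) / 4 := by rw [← mul_div_assoc, hBsq]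
      rw [h6]
      have hp : (0:ℝ) < ((2 ^ k : ℕ) : ℝ) := by positivity
      nlinarith
    have h9 := le_of_mul_le_mul_left h5 hB0
    rwa [hBn] at h9
  have h0P : (0 : EuclideanSpace ℝ (Fin (2 ^ k))) ∈ KK s (WE δ) :=
    ball_sub hs _ (WE_abs δ) (by simp; linarith)
  have hnt : Metric.hausdorffEDist (KK s (WE ε)) (KK s (WE δ)) ≠ ⊤ :=
    Metric.hausdorffEDist_ne_top_of_nonempty_of_bounded ⟨_, hxP⟩ ⟨_, h0P⟩
      (KK_bdd hs.le _) (KK_bdd hs.le _)
  have h1 := Metric.infDist_le_hausdorffDist_of_mem hxP hnt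
  have h2 : √((2 ^ k : ℕ) : ℝ) / 4 ≤ Metric.infDist (s • B) (KK s (WE δ)) :=
    (Metric.le_infDist ⟨_, h0P⟩).mpr hfar
  linarith

theorem reflect_E {k : ℕ} (ε δ : Fin (2 ^ k) → Bool) :
    ∃ σ : Fin (2 ^ k) → ℝ, (∀ l, σ l = 1 ∨ σ l = -1) ∧
      ∀ x : E (2 ^ k), x ∈ PE ε ↔ WithLp.toLp 2 (fun l => σ l * x l) ∈ PE δ := by
  refine ⟨fun l => pm (ε l) * pm (δ l), fun l => ?_, fun x => ?_⟩
  · rcases pm_cases (ε l) with h | h <;> rcases pm_cases (δ l) with h' | h' <;>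
      simp only [h, h'] <;> norm_num
  · unfold PE KK
    simp only [mem_ofPred_eq]
    have h1 : ∀ j, |pm (ε j) * pm (δ j) * x j| = |x j| := by
      intro j; rw [abs_mul, abs_mul, pm_abs, pm_abs, one_mul, one_mul]
    have h2 : ∀ a, ∑ j, WE δ a j * (pm (ε j) * pm (δ j) * x j) = ∑ j, WE ε a j * x j := by
      intro a; refine Finset.sum_congr rfl fun j _ => ?_
      unfold WE
      calc _ = chi a j * pm (ε j) * x j * (pm (δ j) * pm (δ j)) := by ring
        _ = _ := by rw [pm_mul_self, mul_one]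
    simp only [h1, h2]

end Pool.Agent.Y509.RF
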